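import Mathlib

/-!
# Binary pattern colourings: the conjectured linear bound for `A_v(0,d)`

Binary words are lists of Booleans (`false = 0`, `true = 1`), the most significant digit first.
-/

namespace Pool.Agent.Lib.MP_6ec7bd_co

/-- `|w|_v`: the number of (possibly overlapping) occurrences of `v` as a factor of `w`, counted by
the position where the occurrence ends: the number of prefixes of `w` having `v` as a suffix. -/
def occ (v w : List Bool) : ℕ := w.inits.countP (fun p => decide (v <:+ p))

/-- `[w]_2`: the integer represented by `w` in base two. -/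
def val (w : List Bool) : ℕ := w.foldl (fun a b => 2 * a + b.toNat) 0

/-- `(n)_2`: the binary expansion of `n`, without leading zeros; `(0)_2` is the empty word. -/
def bin (n : ℕ) : List Bool := n.bits.reverse

/-- The word `0^i`. -/
def zeros (i : ℕ) : List Bool := List.replicate i false

/-- The number `i` of leading zeros of `v`. -/
def lead (v : List Bool) : ℕ := (v.takeWhile (fun b => !b)).length

/-- The number `j` of trailing zeros of `v`, so that `v = u 0^j` with `u` ending in `1`. -/
def trail (v : List Bool) : ℕ := (v.reverse.takeWhile (fun b => !b)).length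

/-- The set `V` of words of length at least two which contain at least one `1`. -/
def V : Set (List Bool) := {v | 2 ≤ v.length ∧ true ∈ v}

/-- `e_v(n) = |0^i (n)_2|_v`. -/
def e (v : List Bool) (n : ℕ) : ℕ := occ v (zeros (lead v) ++ bin n)

/-- `A_v(0,d)`: the least `l ≥ 1` such that `e_v(l d)` is odd. -/
noncomputable def A (v : List Bool) (d : ℕ) : ℕ := sInf {l | 1 ≤ l ∧ Odd (e v (l * d))}

/-- The pairs `(x,y)` of words of length `|v| - 1` with `|0^i x|_v + |y x|_v + |y 0^j|_v` odd. -/
def Admissible (v x y : List Bool) : Prop :=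
  x.length = v.length - 1 ∧ y.length = v.length - 1 ∧
    Odd (occ v (zeros (lead v) ++ x) + occ v (y ++ x) + occ v (y ++ zeros (trail v)))

/-- `(x,y)` is the pair `(x_min, y_min)`: the lexicographically least admissible pair, comparing
`x` first and then `y` (`<` on words is the lexicographic order). -/
def IsLeastPair (v x y : List Bool) : Prop :=
  Admissible v x y ∧ ∀ x' y', Admissible v x' y' → x < x' ∨ (x = x' ∧ (y < y' ∨ y = y'))

/-- `C_v = 2^{-(|v|-1+j)} [x_min]_2`, as a function of `v` and `x = x_min`. -/
def C (v x : List Bool) : ℚ := (val x : ℚ) / 2 ^ (v.length - 1 + trail v)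

/-- `B_v = [y_min]_2 - 2^j C_v`, as a function of `v`, `x = x_min` and `y = y_min`. -/
def B (v x y : List Bool) : ℚ := (val y : ℚ) - 2 ^ trail v * C v x

/-- The bound `A_v(0,d) ≤ C_v d + B_v` for all `v ∈ V` other than `11` and all `d ≥ T(|v|)`. -/
def LinearBound (T : ℕ → ℕ) : Prop :=
  ∀ v ∈ V, v ≠ [true, true] → ∀ x y, IsLeastPair v x y →
    ∀ d, T v.length ≤ d → (A v d : ℚ) ≤ C v x * d + B v x y

/-- The statement of Q1: for all `v ∈ V` other than `11` and all `d ≥ 2^(2|v|+1)` one has
`A_v(0,d) ≤ C_v d + B_v`, with equality if and only if `d = 2^j (2^k + 1)` with `k ≥ 2|v| - 2`. -/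
def Q1 : Prop :=
  ∀ v ∈ V, v ≠ [true, true] → ∀ x y, IsLeastPair v x y →
    ∀ d, 2 ^ (2 * v.length + 1) ≤ d → (A v d : ℚ) ≤ C v x * d + B v x y ∧
      ((A v d : ℚ) = C v x * d + B v x y ↔
        ∃ k, 2 * v.length - 2 ≤ k ∧ d = 2 ^ trail v * (2 ^ k + 1))

end Pool.Agent.Lib.MP_6ec7bd_co
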