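import Mathlib
import Pool.Agent.Lib.MP_6ec7bd_co.Defs

/-!
# The patterns `1 0^j` violate the conjectured bound

For `v = 1 0^j` and `d = 2^n - 1` with `n > j ≥ 1` one has `A_v(0,d) = 2^j`, whereas
`C_v = 4^{-j}` and `B_v = 1 - 2^{-j}`.
-/

namespace Pool.Agent.Lib.MP_6ec7bd_co

/-- The pattern `1 0^j`. -/
def pat (j : ℕ) : List Bool := true :: List.replicate j false

theorem occ_snoc (v w : List Bool) (b : Bool) :
    occ v (w ++ [b]) = occ v w + if v <:+ (w ++ [b]) then 1 else 0 := by
  unfold occ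
  rw [List.inits_append, List.countP_append]
  congr 1
  simp [List.countP_cons]

theorem occ_nil (v : List Bool) (hv : v ≠ []) : occ v [] = 0 := by
  simp [occ, hv]

theorem bin_odd (m : ℕ) : bin (2 * m + 1) = bin m ++ [true] := by
  simp [bin, Nat.bit1_bits]

theorem bin_even (m : ℕ) (hm : m ≠ 0) : bin (2 * m) = bin m ++ [false] := by
  simp [bin, Nat.bit0_bits m hm]

theorem bin_zero : bin 0 = [] := by simp [bin]

theorem pat_succ (j : ℕ) : pat (j + 1) = pat j ++ [false] := by
  simp [pat, List.replicate_succ']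

theorem snoc_suffix (a b : List Bool) (x y : Bool) :
    a ++ [x] <:+ b ++ [y] ↔ x = y ∧ a <:+ b := by
  rw [← List.reverse_prefix]
  simp [List.cons_prefix_cons, List.reverse_prefix]

theorem pat_suffix (j : ℕ) : ∀ M : ℕ, pat j <:+ bin M ↔ M % 2 ^ (j + 1) = 2 ^ j := by
  induction j with
  | zero =>
    intro M
    rcases Nat.even_or_odd' M with ⟨m, rfl | rfl⟩
    · by_cases hm : m = 0
      · subst hm
        simp [pat, bin_zero]
      · rw [bin_even m hm]
        have : pat 0 = [] ++ [true] := rfl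
        rw [this, snoc_suffix]
        simp
    · rw [bin_odd]
      have : pat 0 = [] ++ [true] := rfl
      rw [this, snoc_suffix]
      simp
  | succ j ih =>
    intro M
    rcases Nat.even_or_odd' M with ⟨m, rfl | rfl⟩
    · by_cases hm : m = 0
      · subst hm
        simp only [pat, bin_zero, mul_zero, Nat.zero_mod]
        constructor
        · intro h
          simp at h
        · intro h
          exact absurd h.symm (pow_ne_zero _ two_ne_zero)
      · rw [bin_even m hm, pat_succ, snoc_suffix]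
        simp only [true_and]
        rw [ih]
        have : 2 * m % 2 ^ (j + 1 + 1) = 2 * (m % 2 ^ (j + 1)) := by
          rw [pow_succ 2 (j + 1), mul_comm (2 ^ (j + 1)) 2, Nat.mul_mod_mul_left]
        rw [this, pow_succ 2 j]
        omega
    · rw [bin_odd, pat_succ, snoc_suffix]
      simp only [Bool.false_eq_true, false_and, false_iff]
      intro h
      have h1 : (2 * m + 1) % 2 ^ (j + 1 + 1) % 2 = (2 * m + 1) % 2 :=
        Nat.mod_mod_of_dvd _ (dvd_pow_self 2 (by omega))
      rw [h, pow_succ] at h1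
      omega

theorem pat_ne_nil (j : ℕ) : pat j ≠ [] := by simp [pat]

theorem lead_pat (j : ℕ) : lead (pat j) = 0 := by simp [lead, pat]

theorem e_pat_eq (j n : ℕ) : e (pat j) n = occ (pat j) (bin n) := by
  simp [e, lead_pat, zeros]

theorem e_zero (j : ℕ) : e (pat j) 0 = 0 := by
  rw [e_pat_eq, bin_zero, occ_nil _ (pat_ne_nil j)]

theorem e_rec (j M : ℕ) (hM : M ≠ 0) :
    e (pat j) M = e (pat j) (M / 2) + if M % 2 ^ (j + 1) = 2 ^ j then 1 else 0 := by
  have key : bin M = bin (M / 2) ++ [decide (M % 2 = 1)] := by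
    rcases Nat.even_or_odd' M with ⟨m, rfl | rfl⟩
    · rw [bin_even m (by omega)]; simp
    · rw [bin_odd]
      have h1 : (2 * m + 1) / 2 = m := by omega
      have h2 : (2 * m + 1) % 2 = 1 := by omega
      rw [h1, h2]; simp
  rw [e_pat_eq, e_pat_eq, key, occ_snoc, ← key]
  simp only [pat_suffix]

theorem e_eq_zero (j : ℕ) : ∀ N : ℕ, (∀ k, N / 2 ^ k % 2 ^ (j + 1) ≠ 2 ^ j) → e (pat j) N = 0 := by
  intro N
  induction N using Nat.strong_induction_on with
  | _ N ih =>
    intro h
    by_cases hN : N = 0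
    · rw [hN, e_zero]
    · rw [e_rec j N hN, ih (N / 2) (by omega)]
      · have := h 0
        simp only [pow_zero, Nat.div_one] at this
        simp [this]
      · intro k
        have := h (k + 1)
        rwa [pow_succ', ← Nat.div_div_eq_div_mul] at this

/-- The multiples `l (2^n - 1)` with `1 ≤ l < 2^j`, `j < n`, do not contain `1 0^j`. -/
theorem no_pat (j n l : ℕ) (hn : j < n) (hl : 1 ≤ l) (hlj : l < 2 ^ j) :
    ∀ k, l * (2 ^ n - 1) / 2 ^ k % 2 ^ (j + 1) ≠ 2 ^ j := by
  intro k hk
  set N := l * (2 ^ n - 1) with hN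
  have hNl : N + l = l * 2 ^ n := by
    rw [hN, Nat.mul_sub, mul_one]
    apply Nat.sub_add_cancel
    exact Nat.le_mul_of_pos_right _ (by positivity)
  -- N = q 2^(k+j+1) + 2^(k+j) + r
  set r := N % 2 ^ k with hr
  have hrlt : r < 2 ^ k := Nat.mod_lt _ (by positivity)
  set q := N / 2 ^ k / 2 ^ (j + 1) with hq
  have h1 : N / 2 ^ k = 2 ^ (j + 1) * q + 2 ^ j := by
    rw [← hk, hq]; exact (Nat.div_add_mod _ _).symm
  have h2 : N = 2 ^ k * (2 ^ (j + 1) * q + 2 ^ j) + r := by
    rw [← h1, hr]; exact (Nat.div_add_mod _ _).symm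
  have h3 : N = 2 ^ (k + j + 1) * q + 2 ^ (k + j) + r := by
    rw [h2]; ring
  rcases Nat.lt_or_ge k n with hkn | hkn
  · rcases Nat.lt_or_ge (k + j) n with hkj | hkj
    · -- k + j + 1 ≤ n
      have hd : 2 ^ (k + j + 1) ∣ N + l := by
        rw [hNl]; exact Dvd.dvd.mul_left (pow_dvd_pow 2 hkj) l
      have hd2 : 2 ^ (k + j + 1) ∣ 2 ^ (k + j) + (r + l) := by
        have : N + l = 2 ^ (k + j + 1) * q + (2 ^ (k + j) + (r + l)) := by rw [h3]; ring
        rw [this] at hd
        exact (Nat.dvd_add_right (dvd_mul_right _ _)).1 hd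
      have hlt : r + l < 2 ^ (k + j) := by
        have h5 : r + 1 ≤ 2 ^ k := hrlt
        have h6 : l + 1 ≤ 2 ^ j := hlj
        rw [pow_add]
        nlinarith [Nat.mul_le_mul h5 h6]
      have h7 : 2 ^ (k + j + 1) ≤ 2 ^ (k + j) + (r + l) := Nat.le_of_dvd (by omega) hd2
      rw [pow_succ] at h7
      omega
    · -- k < n ≤ k + j
      have hd : 2 ^ n ∣ N + l := by rw [hNl]; exact dvd_mul_left _ _
      have hd2 : 2 ^ n ∣ r + l := by
        have h5 : N + l = (2 ^ (k + j + 1) * q + 2 ^ (k + j)) + (r + l) := by rw [h3]; ring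
        rw [h5] at hd
        refine (Nat.dvd_add_right ?_).1 hd
        exact dvd_add (Dvd.dvd.mul_right (pow_dvd_pow 2 (by omega)) q) (pow_dvd_pow 2 hkj)
      have h6 : 2 ^ k ≤ 2 ^ (n - 1) := Nat.pow_le_pow_right (by norm_num) (by omega)
      have h7 : 2 ^ j ≤ 2 ^ (n - 1) := Nat.pow_le_pow_right (by norm_num) (by omega)
      have h8 : 2 ^ n = 2 ^ (n - 1) + 2 ^ (n - 1) := by
        have : n = (n - 1) + 1 := by omega
        conv_lhs => rw [this, pow_succ]
        ring
      have h9 : 2 ^ n ≤ r + l := Nat.le_of_dvd (by omega) hd2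
      omega
  · -- k ≥ n
    have h5 : 2 ^ (k + j) ≤ N := by rw [h3]; omega
    have h6 : l * 2 ^ n < 2 ^ (k + j) := by
      calc l * 2 ^ n < 2 ^ j * 2 ^ n := Nat.mul_lt_mul_of_pos_right hlj (by positivity)
        _ = 2 ^ (n + j) := by rw [pow_add]; ring
        _ ≤ 2 ^ (k + j) := Nat.pow_le_pow_right (by norm_num) (by omega)
    omega

theorem e_small (j n l : ℕ) (hn : j < n) (hl : 1 ≤ l) (hlj : l < 2 ^ j) :
    e (pat j) (l * (2 ^ n - 1)) = 0 :=
  e_eq_zero j _ (no_pat j n l hn hl hlj)

theorem e_top (j n : ℕ) (hj : 1 ≤ j) (hn : j < n) :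
    e (pat j) (2 ^ j * (2 ^ n - 1)) = 1 := by
  have hpos : 0 < 2 ^ n - 1 := by
    have : 2 ^ 1 ≤ 2 ^ n := Nat.pow_le_pow_right (by norm_num) (by omega)
    omega
  have hne : 2 ^ j * (2 ^ n - 1) ≠ 0 := by positivity
  rw [e_rec j _ hne]
  have h1 : 2 ^ j * (2 ^ n - 1) / 2 = 2 ^ (j - 1) * (2 ^ n - 1) := by
    have : 2 ^ j = 2 * 2 ^ (j - 1) := by
      conv_lhs => rw [show j = (j - 1) + 1 by omega, pow_succ]
      ring
    rw [this, mul_assoc, Nat.mul_div_cancel_left _ (by norm_num)]
  have h2 : 2 ^ j * (2 ^ n - 1) % 2 ^ (j + 1) = 2 ^ j := by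
    rw [pow_succ, Nat.mul_mod_mul_left]
    have : (2 ^ n - 1) % 2 = 1 := by
      have : 2 ^ n = 2 * 2 ^ (n - 1) := by
        conv_lhs => rw [show n = (n - 1) + 1 by omega, pow_succ]
        ring
      omega
    rw [this, mul_one]
  rw [h1, h2, e_small j n (2 ^ (j - 1)) hn Nat.one_le_two_pow
    (Nat.pow_lt_pow_right (by norm_num) (by omega))]
  simp

/-- `A_v(0, 2^n - 1) = 2^j` for `v = 1 0^j` and `n > j ≥ 1`. -/
theorem A_pat (j n : ℕ) (hj : 1 ≤ j) (hn : j < n) : A (pat j) (2 ^ n - 1) = 2 ^ j := by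
  unfold A
  apply le_antisymm
  · apply Nat.sInf_le
    refine ⟨Nat.one_le_two_pow, ?_⟩
    rw [e_top j n hj hn]
    exact odd_one
  · have hne : {l | 1 ≤ l ∧ Odd (e (pat j) (l * (2 ^ n - 1)))}.Nonempty :=
      ⟨2 ^ j, Nat.one_le_two_pow, by rw [e_top j n hj hn]; exact odd_one⟩
    obtain ⟨h1, h2⟩ := Nat.sInf_mem hne
    by_contra hcon
    push Not at hcon
    rw [e_small j n _ hn h1 hcon] at h2
    exact absurd h2 (by decide)

/-! ## The least admissible pair for `1 0^j` -/

theorem occ_short (v : List Bool) : ∀ w : List Bool, w.length < v.length → occ v w = 0 := by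
  intro w
  induction w using List.reverseRecOn with
  | nil =>
    intro h
    exact occ_nil v (by rintro rfl; simp at h)
  | append_singleton w b ih =>
    intro h
    rw [List.length_append, List.length_singleton] at h
    rw [occ_snoc, ih (by omega), if_neg]
    intro hs
    have := hs.length_le
    simp at this
    omega

theorem occ_same (v w : List Bool) (hv : v ≠ []) (h : w.length = v.length) :
    occ v w = if v = w then 1 else 0 := by
  have hw : w ≠ [] := by
    rintro rfl
    simp at h
    exact hv (List.length_eq_zero_iff.1 h.symm)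
  obtain ⟨w', b, rfl⟩ := List.eq_nil_or_concat'  w |>.resolve_left hw
  rw [occ_snoc, occ_short v w' (by simp at h; omega), zero_add]
  congr 1
  apply propext
  constructor
  · intro hs
    exact hs.eq_of_length h.symm
  · intro hs
    rw [← hs]

theorem occ_false_cons (j : ℕ) (w : List Bool) : occ (pat j) (false :: w) = occ (pat j) w := by
  induction w using List.reverseRecOn with
  | nil =>
    rw [occ_nil _ (pat_ne_nil j)]
    have : (false :: ([] : List Bool)) = [] ++ [false] := rfl
    rw [this, occ_snoc, occ_nil _ (pat_ne_nil j), if_neg]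
    intro h
    have h1 := List.suffix_cons_iff.1 (show pat j <:+ false :: [] from h)
    rcases h1 with h1 | h1
    · simp [pat] at h1
    · exact pat_ne_nil j (List.suffix_nil.1 h1)
  | append_singleton w b ih =>
    rw [occ_snoc, ← List.cons_append, occ_snoc, ih]
    congr 2
    apply propext
    rw [List.cons_append, List.suffix_cons_iff]
    constructor
    · rintro (h | h)
      · simp [pat] at h
      · exact h
    · intro h; exact Or.inr h

theorem occ_zeros_append (j i : ℕ) (w : List Bool) :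
    occ (pat j) (zeros i ++ w) = occ (pat j) w := by
  induction i with
  | zero => simp [zeros]
  | succ i ih =>
    have : zeros (i + 1) ++ w = false :: (zeros i ++ w) := by simp [zeros, List.replicate_succ]
    rw [this, occ_false_cons, ih]

/-- The word `0^{j-1} 1`. -/
def xm (j : ℕ) : List Bool := zeros (j - 1) ++ [true]

theorem trail_pat (j : ℕ) : trail (pat j) = j := by
  simp only [trail, pat, List.reverse_cons, List.reverse_replicate]
  rw [List.takeWhile_append_of_pos]
  · simp
  · intro b hb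
    rw [List.eq_of_mem_replicate hb]; rfl

theorem xm_length (j : ℕ) (hj : 1 ≤ j) : (xm j).length = j := by
  simp [xm, zeros]; omega

theorem xm_min (n : ℕ) : ∀ w : List Bool, w.length = n + 1 → w ≠ zeros (n + 1) →
    xm (n + 1) < w ∨ xm (n + 1) = w := by
  induction n with
  | zero =>
    intro w hw hne
    obtain ⟨b, rfl⟩ := List.length_eq_one_iff.1 hw
    right
    cases b
    · exact absurd rfl hne
    · rfl
  | succ n ih =>
    intro w hw hne
    obtain ⟨b, w', rfl⟩ := List.exists_cons_of_length_eq_add_one hw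
    have hx : xm (n + 1 + 1) = false :: xm (n + 1) := by
      simp [xm, zeros, List.replicate_succ]
    rw [hx]
    cases b
    · have hw' : w' ≠ zeros (n + 1) := by
        rintro rfl
        apply hne
        simp [zeros, List.replicate_succ]
      rcases ih w' (by simpa using hw) hw' with h | h
      · left
        exact List.Lex.cons h
      · right
        rw [h]
    · left
      exact List.Lex.rel (by decide)

theorem leastPair (j : ℕ) (hj : 1 ≤ j) : IsLeastPair (pat j) (xm j) (xm j) := by
  have hlen : (pat j).length = j + 1 := by simp [pat]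
  have hxl : (xm j).length = j := xm_length j hj
  constructor
  · refine ⟨by rw [hxl, hlen]; rfl, by rw [hxl, hlen]; rfl, ?_⟩
    rw [lead_pat, trail_pat, occ_zeros_append, occ_short (pat j) (xm j) (by omega)]
    have h1 : occ (pat j) (xm j ++ xm j) = 0 := by
      have : xm j ++ xm j = zeros (j - 1) ++ (true :: xm j) := by
        simp only [xm, List.append_assoc]; rfl
      rw [this, occ_zeros_append, occ_same _ _ (pat_ne_nil j) (by simp [hxl, hlen]), if_neg]
      intro h
      have h2 : List.replicate j false = xm j := by simpa [pat] using h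
      have h3 : true ∈ xm j := by simp [xm]
      rw [← h2] at h3
      exact absurd (List.eq_of_mem_replicate h3) (by decide)
    have h2 : occ (pat j) (xm j ++ zeros j) = 1 := by
      have : xm j ++ zeros j = zeros (j - 1) ++ pat j := by
        simp only [xm, List.append_assoc]; rfl
      rw [this, occ_zeros_append, occ_same _ _ (pat_ne_nil j) rfl, if_pos rfl]
    rw [h1, h2]
    decide
  · intro x' y' ⟨hx', hy', hodd⟩
    rw [hlen] at hx' hy'
    simp only [Nat.add_sub_cancel] at hx' hy'
    rw [lead_pat, trail_pat, occ_zeros_append, occ_short (pat j) x' (by omega), zero_add] at hodd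
    obtain ⟨n, rfl⟩ : ∃ n, j = n + 1 := ⟨j - 1, by omega⟩
    have hx0 : x' ≠ zeros (n + 1) := by
      rintro rfl
      rw [← two_mul] at hodd
      exact (Nat.not_odd_iff_even.2 (even_two_mul _)) hodd
    rcases xm_min n x' hx' hx0 with h | h
    · exact Or.inl h
    · refine Or.inr ⟨h, ?_⟩
      subst h
      apply xm_min n y' hy'
      rintro rfl
      rw [occ_zeros_append, occ_zeros_append, occ_short _ _ (by rw [hxl, hlen]; omega),
        occ_short _ _ (by simp [zeros, hlen])] at hodd
      exact absurd hodd (by decide)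

theorem val_xm (j : ℕ) : val (xm j) = 1 := by
  have h : ∀ i, (zeros i).foldl (fun a b => 2 * a + b.toNat) 0 = 0 := by
    intro i
    induction i with
    | zero => rfl
    | succ i ih =>
      have : zeros (i + 1) = false :: zeros i := by simp [zeros, List.replicate_succ]
      rw [this, List.foldl_cons]
      simpa using ih
  simp [val, xm, List.foldl_append, h]

theorem C_pat (j : ℕ) : C (pat j) (xm j) = 1 / 2 ^ (2 * j) := by
  have hlen : (pat j).length - 1 = j := by simp [pat]
  rw [C, val_xm, trail_pat, hlen, two_mul]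
  simp

theorem B_pat (j : ℕ) : B (pat j) (xm j) (xm j) = 1 - 1 / 2 ^ j := by
  rw [B, C_pat, val_xm, trail_pat, two_mul, pow_add]
  field_simp
  push_cast
  ring

theorem pat_mem_V (j : ℕ) (hj : 1 ≤ j) : pat j ∈ V := by
  refine ⟨by simp [pat]; omega, by simp [pat]⟩

theorem pat_ne (j : ℕ) : pat j ≠ [true, true] := by
  intro h
  have h2 : List.replicate j false = [true] := by simpa [pat] using h
  have h3 : true ∈ List.replicate j false := by rw [h2]; simp
  exact absurd (List.eq_of_mem_replicate h3) (by decide)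

/-- The violation: for `v = 1 0^j`, `d = 2^n - 1` with `j < n < 3 j`. -/
theorem violation (j n : ℕ) (hj : 1 ≤ j) (hn : j < n) (hn2 : n + 1 ≤ 3 * j) :
    C (pat j) (xm j) * ((2 ^ n - 1 : ℕ) : ℚ) + B (pat j) (xm j) (xm j)
      < (A (pat j) (2 ^ n - 1) : ℚ) := by
  rw [A_pat j n hj hn, C_pat, B_pat]
  have h1 : (1 : ℕ) ≤ 2 ^ n := Nat.one_le_two_pow
  push_cast [Nat.cast_sub h1]
  have ha : (2 : ℚ) ≤ 2 ^ j := by
    calc (2 : ℚ) = 2 ^ 1 := by norm_num
      _ ≤ 2 ^ j := pow_le_pow_right₀ (by norm_num) hj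
  have hb : (2 : ℚ) ^ n * 2 ≤ (2 ^ j) ^ 3 := by
    rw [← pow_succ, ← pow_mul]
    exact pow_le_pow_right₀ (by norm_num) (by omega)
  have hc : (2 : ℚ) ^ (2 * j) = (2 ^ j) ^ 2 := by rw [← pow_mul]; ring_nf
  rw [hc]
  set a : ℚ := 2 ^ j with hadef
  have hapos : 0 < a := by linarith
  have key : 1 / a ^ 2 * (2 ^ n - 1) ≤ a / 2 - 1 / a ^ 2 := by
    rw [div_mul_eq_mul_div, one_mul, div_le_iff₀ (by positivity)]
    field_simp
    nlinarith
  have h3 : 0 < 1 / a ^ 2 := by positivity
  have h4 : 0 < 1 / a := by positivity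
  linarith

theorem threshold (T : ℕ → ℕ) (hT : LinearBound T) (m : ℕ) (hm : 2 ≤ m) :
    2 ^ (3 * m - 4) ≤ T m := by
  by_contra hcon
  push Not at hcon
  obtain ⟨j, rfl⟩ : ∃ j, m = j + 1 := ⟨m - 1, by omega⟩
  have hj : 1 ≤ j := by omega
  have hlen : (pat j).length = j + 1 := by simp [pat]
  have h := hT (pat j) (pat_mem_V j hj) (pat_ne j) (xm j) (xm j) (leastPair j hj)
    (2 ^ (3 * (j + 1) - 4) - 1) (by rw [hlen]; omega)
  have h2 := violation j (3 * (j + 1) - 4) hj (by omega) (by omega)
  exact absurd h (not_le.2 h2)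

theorem not_Q1 : ¬ Q1 := by
  intro h
  have hL : LinearBound (fun m => 2 ^ (2 * m + 1)) := by
    intro v hv hv2 x y hxy d hd
    exact (h v hv hv2 x y hxy d hd).1
  have := threshold _ hL 6 (by norm_num)
  norm_num at this

end Pool.Agent.Lib.MP_6ec7bd_co
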